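import Pool.Agent.Run7.h407.GS.UnitC

/-!
Piece P2 of the steering theorem: the approximate solutions, with more information.
-/

set_option autoImplicit false
set_option maxHeartbeats 1000000

open Set Filter Topology MeasureTheory

namespace Pool.Agent.Run7.h407.GD

open H459R3.NS
open Pool.Agent.Run7.h782.GD hiding sq
open Pool.Agent.Run7.h782.GD renaming sq → ksq
open Pool.Agent.Run7.h782.GS

/-- Decomposition of a finite real solenoidal field into pieces. -/
theorem split2 (Z : Finset K3) (z : Cf) (h0 : (0 : K3) ∉ Z) (hz : ∀ k ∉ Z, z k = 0)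
    (hh : Herm z) (hd : Dv z) :
    ∃ (κ : Type) (_ : Fintype κ) (_ : DecidableEq κ) (p : κ → Pc),
      ∑ i, pm (p i).k ((p i).c • vc (p i).a) = z ∧
      (∀ i, (p i).g ≤ ∑ k ∈ Z, ‖z k‖ / len k) ∧
      ∑ i, (p i).g ≤ 2 * ∑ k ∈ Z, ‖z k‖ / len k ∧
      ∀ φ : K3 → ℝ, (∀ k, 0 ≤ φ k) →
        ∑ i, φ (p i).k * (‖(p i).c‖ * len (p i).a) ≤ 2 * ∑ k ∈ Z, φ k * ‖z k‖ := by
  classical
  have hne : ∀ k : Z, (k : K3) ≠ 0 := fun k h => h0 (h ▸ k.2)
  choose a b ha hb hka hkb hab hdec using fun k : Z => exists_basis (hne k)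
  choose c d hcd hc hdd using fun k : Z => hdec k (z k) (hd k)
  set p : Z × Bool → Pc := fun q => if q.2 then
    ⟨q.1, a q.1, b q.1, (1 / 2 : ℂ) * c q.1, hne q.1, ha q.1, hb q.1, hka q.1,
      by rw [dz_comm]; exact hkb q.1, by rw [dz_comm]; exact hab q.1⟩ else
    ⟨q.1, b q.1, a q.1, (1 / 2 : ℂ) * d q.1, hne q.1, hb q.1, ha q.1, hkb q.1,
      by rw [dz_comm]; exact hka q.1, hab q.1⟩ with hp
  have pt : ∀ k : Z, p (k, true) = ⟨k, a k, b k, (1 / 2 : ℂ) * c k, hne k, ha k, hb k, hka k,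
      by rw [dz_comm]; exact hkb k, by rw [dz_comm]; exact hab k⟩ := fun k => rfl
  have pf : ∀ k : Z, p (k, false) = ⟨k, b k, a k, (1 / 2 : ℂ) * d k, hne k, hb k, ha k, hkb k,
      by rw [dz_comm]; exact hka k, hab k⟩ := fun k => rfl
  have hhalf : ‖(1 / 2 : ℂ)‖ = 1 / 2 := by
    rw [norm_div, norm_one]
    norm_num
  have gt : ∀ k : Z, (p (k, true)).g ≤ ‖z k‖ / len k := by
    intro k
    rw [pt]
    unfold Pc.g
    simp only
    apply div_le_div_of_nonneg_right _ (len_nonneg _)
    rw [norm_mul, hhalf]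
    have := hc k
    linarith
  have gf : ∀ k : Z, (p (k, false)).g ≤ ‖z k‖ / len k := by
    intro k
    rw [pf]
    unfold Pc.g
    simp only
    apply div_le_div_of_nonneg_right _ (len_nonneg _)
    rw [norm_mul, hhalf]
    have := hdd k
    linarith
  have hZs : ∑ k : Z, ‖z k‖ / len k = ∑ k ∈ Z, ‖z k‖ / len k :=
    Finset.sum_coe_sort Z (fun k => ‖z k‖ / len k)
  have hle : ∀ k : Z, ‖z k‖ / len k ≤ ∑ k ∈ Z, ‖z k‖ / len k := fun k =>
    Finset.single_le_sum (f := fun k => ‖z k‖ / len k)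
      (fun k _ => div_nonneg (norm_nonneg _) (len_nonneg _)) k.2
  refine ⟨Z × Bool, inferInstance, inferInstance, p, ?_, ?_, ?_, ?_⟩
  · rw [← Finset.univ_product_univ, Finset.sum_product]
    have h1 : ∀ k : Z, ∑ y : Bool, pm (p (k, y)).k ((p (k, y)).c • vc (p (k, y)).a)
        = pm (k : K3) ((1 / 2 : ℂ) • z k) := by
      intro k
      rw [Fintype.sum_bool, pt, pf]
      simp only
      rw [← pm_add]
      congr 1
      rw [hcd k, smul_add, smul_smul, smul_smul]
    simp_rw [h1]
    funext κ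
    rw [Finset.sum_apply]
    simp_rw [pm_smul_half]
    rw [← Finset.smul_sum, Finset.sum_add_distrib]
    have e1 : ∑ k : Z, sm (k : K3) (z k) κ = z κ := by
      rw [Finset.sum_coe_sort Z (fun k => sm k (z k) κ)]
      by_cases hκ : κ ∈ Z
      · rw [Finset.sum_eq_single_of_mem κ hκ]
        · rw [sm_self]
        · intro k _ hk
          exact sm_ne (Ne.symm hk) _
      · rw [hz κ hκ]
        apply Finset.sum_eq_zero
        intro k hk
        apply sm_ne
        intro h
        exact hκ (h ▸ hk)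
    have e2 : ∑ k : Z, sm (-(k : K3)) (cj (z k)) κ = z κ := by
      rw [Finset.sum_coe_sort Z (fun k => sm (-k) (cj (z k)) κ)]
      rw [herm_iff] at hh
      by_cases hκ : -κ ∈ Z
      · rw [Finset.sum_eq_single_of_mem (-κ) hκ]
        · rw [neg_neg, sm_self, hh, cj_cj]
        · intro k _ hk
          apply sm_ne
          intro h
          apply hk
          rw [h, neg_neg]
      · have h2 : z κ = 0 := by
          have := hh (-κ)
          rw [neg_neg, hz _ hκ, cj_zero] at this
          exact this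
        rw [h2]
        apply Finset.sum_eq_zero
        intro k hk
        apply sm_ne
        intro h
        apply hκ
        rw [h, neg_neg]
        exact hk
    rw [e1, e2, ← two_smul ℂ (z κ), smul_smul]
    norm_num
  · rintro ⟨k, y⟩
    cases y
    · exact (gf k).trans (hle k)
    · exact (gt k).trans (hle k)
  · rw [← Finset.univ_product_univ, Finset.sum_product, ← hZs, Finset.mul_sum]
    apply Finset.sum_le_sum
    intro k _
    rw [Fintype.sum_bool]
    have h1 := gt k
    have h2 := gf k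
    linarith
  · intro φ hφ
    rw [← Finset.univ_product_univ, Finset.sum_product,
      ← Finset.sum_coe_sort Z (fun k => φ k * ‖z k‖), Finset.mul_sum]
    apply Finset.sum_le_sum
    intro k _
    rw [Fintype.sum_bool, pt, pf]
    simp only
    rw [norm_mul, norm_mul, hhalf]
    have h1 := hc k
    have h2 := hdd k
    have h3 := hφ (k : K3)
    have h4 : φ k * (1 / 2 * ‖c k‖ * len (a k)) ≤ φ k * ‖z k‖ := by
      apply mul_le_mul_of_nonneg_left _ h3
      linarith
    have h5 : φ k * (1 / 2 * ‖d k‖ * len (b k)) ≤ φ k * ‖z k‖ := by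
      apply mul_le_mul_of_nonneg_left _ h3
      linarith
    linarith

theorem stmApp2 : StmApp2 := by
  refine ⟨40, by norm_num, ?_⟩
  intro ν hν Z z h0 hz hh hd
  obtain ⟨κ, iF, iD, p, hsum, hg1, hg2, hg3⟩ := split2 Z z h0 hz hh hd
  set Γ : ℝ := ∑ k ∈ Z, ‖z k‖ / len k with hΓ
  have hΓ0 : 0 ≤ Γ := Finset.sum_nonneg fun k _ => div_nonneg (norm_nonneg _) (len_nonneg _)
  intro δ hδ R η hη
  -- bounds for the finitely many directions
  obtain ⟨nm, hnm1, hnm⟩ : ∃ nm : ℝ, 1 ≤ nm ∧ ∀ i, len (p i).n ≤ nm := by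
    refine ⟨1 + ∑ i, len (p i).n, ?_, ?_⟩
    · have : 0 ≤ ∑ i, len (p i).n := Finset.sum_nonneg fun i _ => len_nonneg _
      linarith
    · intro i
      have : len (p i).n ≤ ∑ i, len (p i).n :=
        Finset.single_le_sum (f := fun i => len (p i).n) (fun i _ => len_nonneg _)
          (Finset.mem_univ i)
      linarith
  obtain ⟨km, hkm1, hkm⟩ : ∃ km : ℝ, 1 ≤ km ∧ ∀ i, len (p i).k ≤ km := by
    refine ⟨1 + ∑ i, len (p i).k, ?_, ?_⟩
    · have : 0 ≤ ∑ i, len (p i).k := Finset.sum_nonneg fun i _ => len_nonneg _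
      linarith
    · intro i
      have : len (p i).k ≤ ∑ i, len (p i).k :=
        Finset.single_le_sum (f := fun i => len (p i).k) (fun i _ => len_nonneg _)
          (Finset.mem_univ i)
      linarith
  -- number of copies
  obtain ⟨J, hJ1, hJ⟩ : ∃ J : ℕ, 1 ≤ J ∧ 2880 * ν * Γ ≤ δ ^ 2 * J := by
    obtain ⟨J, hJ⟩ := exists_nat_ge (2880 * ν * Γ / δ ^ 2)
    refine ⟨J + 1, by omega, ?_⟩
    rw [div_le_iff₀ (by positivity)] at hJ
    push_cast
    nlinarith [sq_nonneg δ]
  have hJ0 : (0 : ℝ) < J := by exact_mod_cast hJ1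
  have hJ1' : (1 : ℝ) ≤ J := by exact_mod_cast hJ1
  set N : ℕ := Fintype.card (κ × Fin J) with hN
  set G : ℝ := Real.sqrt (720 * ν * Γ) + 2 * Γ * km with hG
  have hG0 : 0 ≤ G := by positivity
  -- the large parameter
  have ev : ∀ (C ε : ℝ), 0 < ε → ∀ᶠ E : ℝ in atTop, C / E ≤ ε := by
    intro C ε hε
    exact (tendsto_const_nhds.div_atTop tendsto_id).eventually_le_const hε
  obtain ⟨E, ⟨⟨⟨⟨⟨⟨hE1, hE2⟩, hE3⟩, hE4⟩, hE5⟩, hE6⟩, hE7⟩, hE8⟩ :=
    ((((((((eventually_ge_atTop (1 : ℝ)).and (eventually_ge_atTop (20 * (N : ℝ) ^ 2))).and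
      (eventually_gt_atTop R)).and (eventually_ge_atTop km)).and
      (ev (((N : ℝ) * (160 * ν * G + 120 * G ^ 2) + (N : ℝ) ^ 2 * (160 * G ^ 2)) / (36 * ν))
        η hη)).and
      (ev (((N : ℝ) * G ^ 2 + (N : ℝ) ^ 2 * (4 * G ^ 2)) / (36 * ν)) 1 one_pos)).and
      (ev ((N : ℝ) * (32 * G) / (36 * ν * δ) ^ 2) δ hδ)).and
      (eventually_ge_atTop (1 / (18 * ν)))).exists
  obtain ⟨H, hH⟩ := exists_nat_ge (E * nm)
  have hHE : E ≤ H := by
    refine le_trans ?_ hH
    nlinarith
  have hH1 : (1 : ℝ) ≤ H := hE1.trans hHE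
  have hH0 : (0 : ℝ) < H := by linarith
  set e : κ × Fin J ≃ Fin N := Fintype.equivFin _ with he
  -- the units
  have hpow : ∀ i : ℕ, (H : ℝ) ≤ (H : ℝ) ^ (i + 1) := by
    intro i
    calc (H : ℝ) = (H : ℝ) ^ 1 := (pow_one _).symm
      _ ≤ (H : ℝ) ^ (i + 1) := pow_le_pow_right₀ hH1 (by omega)
  set sc : κ × Fin J → ℕ := fun q => H ^ ((e q : ℕ) + 1) with hsc
  have hsc1 : ∀ q, (H : ℝ) ≤ (sc q : ℝ) := by
    intro q
    rw [hsc]
    push_cast
    exact hpow _
  have hlen : ∀ q : κ × Fin J, (H : ℝ) ≤ len (zm (sc q) (p q.1).n) := by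
    intro q
    rw [len_zm]
    have h1 := one_le_len (p q.1).n0
    have h2 := hsc1 q
    nlinarith
  set u : κ × Fin J → Un ν := fun q =>
    { k := (p q.1).k
      a := (p q.1).a
      m := zm (sc q) (p q.1).n
      c := (p q.1).c / (J : ℂ)
      hν := hν
      ka := (p q.1).ka
      hmk := by rw [dz_zm, (p q.1).nk, mul_zero]
      ma := by rw [dz_zm, (p q.1).na, mul_zero]
      k0 := (p q.1).k0
      a0 := (p q.1).a0
      le := by
        rw [← len_sq, ← len_sq]
        apply pow_le_pow_left₀ (len_nonneg _)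
        exact (hkm q.1).trans (hE4.trans (hHE.trans (hlen q))) } with hu
  have hom : ∀ q, (u q).om = (sc q : ℝ) * len (p q.1).n := fun q => len_zm _ _
  have hga : ∀ q, (u q).ga = (p q.1).g / J := by
    intro q
    unfold Un.ga Pc.g
    show ‖(p q.1).c / (J : ℂ)‖ * len (p q.1).a / len (p q.1).k = _
    rw [norm_div, Complex.norm_natCast]
    ring
  have hga1 : ∀ q, (u q).ga ≤ Γ / J := by
    intro q
    rw [hga]
    exact div_le_div_of_nonneg_right (hg1 q.1) hJ0.le
  have hgasum : ∑ q, (u q).ga ≤ 2 * Γ := by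
    simp_rw [hga]
    rw [← Finset.univ_product_univ, Finset.sum_product]
    simp only [Finset.sum_const, Finset.card_univ, Fintype.card_fin, nsmul_eq_mul]
    have : ∑ x : κ, (J : ℝ) * ((p x).g / J) = ∑ x, (p x).g := by
      apply Finset.sum_congr rfl
      intro x _
      field_simp
    rw [this]
    exact hg2
  have hSz : ∀ q, (u q).Sz ≤ Real.sqrt (720 * ν * (Γ / J)) * (u q).om := by
    intro q
    have h1 := (u q).Sz_sq
    have h2 := (u q).om_pos
    have h3 : (u q).Sz ^ 2 ≤ (Real.sqrt (720 * ν * (Γ / J)) * (u q).om) ^ 2 := by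
      rw [mul_pow, Real.sq_sqrt (by positivity)]
      refine h1.trans ?_
      apply mul_le_mul_of_nonneg_right _ (by positivity)
      exact mul_le_mul_of_nonneg_left (hga1 q) (by positivity)
    exact le_of_sq_le_sq' h3 (by positivity)
  have hSz1 : Real.sqrt (720 * ν * (Γ / J)) ≤ Real.sqrt (720 * ν * Γ) := by
    apply Real.sqrt_le_sqrt
    apply mul_le_mul_of_nonneg_left _ (by positivity)
    exact div_le_self hΓ0 hJ1'
  have hyp : Hyp u E G := by
    refine ⟨hν, hE1, fun q => hHE.trans (hlen q), ?_, hG0, ?_, ?_⟩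
    · intro q r hqr
      have hne : (e q : ℕ) ≠ (e r : ℕ) := fun h => hqr (e.injective (Fin.ext h))
      have key : ∀ q r : κ × Fin J, (e q : ℕ) < (e r : ℕ) → E * (u q).om ≤ (u r).om := by
        intro q r hlt
        rw [hom, hom]
        have h1 := one_le_len (p r.1).n0
        have h2 : (H : ℝ) * (sc q : ℝ) ≤ (sc r : ℝ) := by
          rw [hsc]
          push_cast
          rw [← pow_succ']
          exact pow_le_pow_right₀ hH1 (by omega)
        have h3 := hnm q.1
        have h4 : (0 : ℝ) ≤ (sc q : ℝ) := Nat.cast_nonneg _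
        have h5 : (0 : ℝ) ≤ (sc r : ℝ) := Nat.cast_nonneg _
        calc E * ((sc q : ℝ) * len (p q.1).n) ≤ E * ((sc q : ℝ) * nm) := by
              apply mul_le_mul_of_nonneg_left _ (by linarith)
              exact mul_le_mul_of_nonneg_left h3 h4
          _ = (E * nm) * (sc q : ℝ) := by ring
          _ ≤ H * (sc q : ℝ) := mul_le_mul_of_nonneg_right hH h4
          _ ≤ (sc r : ℝ) := h2
          _ = (sc r : ℝ) * 1 := (mul_one _).symm
          _ ≤ (sc r : ℝ) * len (p r.1).n := mul_le_mul_of_nonneg_left h1 h5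
      rcases lt_or_gt_of_ne hne with h | h
      · exact Or.inl (key q r h)
      · exact Or.inr (key r q h)
    · intro q
      refine (hSz q).trans ?_
      apply mul_le_mul_of_nonneg_right _ (u q).om_pos.le
      rw [hG]
      have : 0 ≤ 2 * Γ * km := by positivity
      linarith
    · intro q
      have h1 : (u q).lo = 2 * ((u q).ga * len (u q).k) := by
        have h2 := len_pos (u q).k0
        unfold Un.lo Un.ga
        field_simp
      rw [h1, hG]
      have h2 : (u q).ga ≤ Γ := (hga1 q).trans (div_le_self hΓ0 hJ1')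
      have h3 : len (u q).k ≤ km := hkm q.1
      have h4 := (u q).ga_nonneg
      have h5 : (u q).ga * len (u q).k ≤ Γ * km := mul_le_mul h2 h3 (len_nonneg _) hΓ0
      have h6 := Real.sqrt_nonneg (720 * ν * Γ)
      linarith
  have hNc : (Fintype.card (κ × Fin J) : ℝ) = N := rfl
  refine ⟨BB u, vv u, FF u, gg u, hmaj u, ww u, appr u, gg_cont u,
    fun t ht => FF_le u (BB u) ht, ?_, ?_, ?_, fun k hk => ww_fr u (Fr_sub u hk), ?_, hmaj_cont u,
    ?_, ?_, fun s hs => ww_heat u (BB u) hs, ?_, ?_⟩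
  · intro T _
    exact (hyp.int_gg (T := T)).trans hE5
  · intro T hT
    refine (hyp.int_vv (BB u) hT).trans ?_
    have h1 := hE6
    have h2 := hgasum
    rw [hNc]
    linarith
  · intro k
    rw [vv_zero, add_comm, ← hsum]
    rw [Pi.add_apply]
    congr 1
    have e1 : ∑ q : κ × Fin J, pm (u q).k ((u q).c • vc (u q).a)
        = ∑ i, pm (p i).k ((p i).c • vc (p i).a) := by
      rw [← Finset.univ_product_univ, Finset.sum_product]
      apply Finset.sum_congr rfl
      intro i _
      show ∑ _l : Fin J, pm (p i).k (((p i).c / (J : ℂ)) • vc (p i).a) = _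
      rw [Finset.sum_const, Finset.card_univ, Fintype.card_fin]
      have h1 : ∀ n : ℕ, n • pm (p i).k (((p i).c / (J : ℂ)) • vc (p i).a)
          = pm (p i).k ((n : ℂ) • (((p i).c / (J : ℂ)) • vc (p i).a)) := by
        intro n
        induction n with
        | zero => simp [pm_zero]
        | succ n ih =>
          rw [succ_nsmul, ih, ← pm_add]
          congr 1
          push_cast
          rw [add_smul, one_smul]
      rw [h1, smul_smul]
      congr 2
      have : (J : ℂ) ≠ 0 := by exact_mod_cast hJ0.ne'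
      field_simp
    rw [e1]
  · intro k hk
    unfold ww
    rw [Finset.sum_apply]
    apply Finset.sum_eq_zero
    intro q _
    apply (u q).W0_low
    exact hk.trans_lt (hE3.trans_le (hyp.hom q))
  · intro t ht
    have h1 := hyp.hmaj_sup (by rw [hNc]; nlinarith [sq_nonneg (N : ℝ)])
      (Real.sqrt_nonneg (720 * ν * (Γ / J))) hSz ht
    refine h1.trans ?_
    apply div_le_div_of_nonneg_right _ (Real.sqrt_nonneg _)
    have h2 : (2 * Real.sqrt (720 * ν * (Γ / J))) ^ 2 ≤ δ ^ 2 := by
      rw [mul_pow, Real.sq_sqrt (by positivity)]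
      have : 720 * ν * (Γ / J) = 720 * ν * Γ / J := by ring
      rw [this, mul_div_assoc', div_le_iff₀ hJ0]
      linarith
    exact le_of_sq_le_sq' h2 hδ.le
  · intro T hT
    have hSS : ∀ i j, (u i).Sz * (u j).Sz ≤ (720 * ν * Γ) * ((u i).om * (u j).om) := by
      intro i j
      have h1 := hSz i
      have h2 := hSz j
      have h3 := (u j).Sz_nonneg
      have h4 := (u i).om_pos
      have h5 := (u j).om_pos
      calc (u i).Sz * (u j).Sz
          ≤ (Real.sqrt (720 * ν * Γ) * (u i).om) * (Real.sqrt (720 * ν * Γ) * (u j).om) := by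
            apply mul_le_mul _ _ h3 (by positivity)
            · exact h1.trans (mul_le_mul_of_nonneg_right hSz1 h4.le)
            · exact h2.trans (mul_le_mul_of_nonneg_right hSz1 h5.le)
        _ = (Real.sqrt (720 * ν * Γ) * Real.sqrt (720 * ν * Γ)) * ((u i).om * (u j).om) := by ring
        _ = _ := by rw [Real.mul_self_sqrt (by positivity)]
    refine (hyp.hmaj_int (by positivity) hSS).trans ?_
    rw [hNc]
    have h1 : (N : ℝ) ^ 2 * (720 * ν * Γ / (36 * E)) ≤ ν * Γ := by
      have e1 : (N : ℝ) ^ 2 * (720 * ν * Γ / (36 * E)) = (20 * (N : ℝ) ^ 2) * (ν * Γ) / E := by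
        field_simp
        ring
      rw [e1, div_le_iff₀ (by linarith)]
      have : 0 ≤ ν * Γ := by positivity
      nlinarith
    have h2 : 10 * ν * ∑ i, (u i).ga ≤ 10 * ν * (2 * Γ) :=
      mul_le_mul_of_nonneg_left hgasum (by positivity)
    have h3 : 0 ≤ ν * Γ := by positivity
    nlinarith
  · intro t ht' s hs
    refine (vv_heat u (BB u) ht' hs).trans ?_
    have h1 : ∑ q, ht s (u q).k * (u q).lo ≤ 40 * ∑ k ∈ Z, ht s k * ‖z k‖ := by
      have h2 := hg3 (ht s) (fun k => (ht_pos s k).le)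
      have h3 : ∑ q, ht s (u q).k * (u q).lo
          = 2 * ∑ i, ht s (p i).k * (‖(p i).c‖ * len (p i).a) := by
        rw [← Finset.univ_product_univ, Finset.sum_product, Finset.mul_sum]
        apply Finset.sum_congr rfl
        intro i _
        have h4 : ∀ l : Fin J, ht s (u (i, l)).k * (u (i, l)).lo
            = 2 * (ht s (p i).k * (‖(p i).c‖ * len (p i).a)) / J := by
          intro l
          show ht s (p i).k * (2 * (‖(p i).c / (J : ℂ)‖ * len (p i).a)) = _
          rw [norm_div, Complex.norm_natCast]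
          ring
        simp_rw [h4]
        rw [Finset.sum_const, Finset.card_univ, Fintype.card_fin, nsmul_eq_mul]
        field_simp
      have h5 : 0 ≤ ∑ k ∈ Z, ht s k * ‖z k‖ :=
        Finset.sum_nonneg fun k _ => mul_nonneg (ht_pos s k).le (norm_nonneg _)
      rw [h3]
      linarith
    have e : ∑ i, (u i).Sz * Real.exp (-(4 * Real.pi ^ 2 * (u i).om ^ 2 * s)) = hmaj u s := rfl
    rw [e]
    linarith
  · intro t ht
    refine (hyp.decay_len ?_ (BB u) hδ ht).trans ?_
    · rw [div_le_iff₀ (by positivity)] at hE8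
      linarith
    · exact mul_le_mul_of_nonneg_right hE7 (Real.exp_pos _).le
where
  le_of_sq_le_sq' {a b : ℝ} (h : a ^ 2 ≤ b ^ 2) (hb : 0 ≤ b) : a ≤ b := by
    nlinarith [sq_nonneg (a - b), sq_nonneg (a + b)]

end Pool.Agent.Run7.h407.GD
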