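import Pool.Agent.Run7.h407.GD.App
import Pool.Agent.Run7.h782.GS.Defs

/-!
Further bounds for one unit and for families: heat weights and one derivative.
-/

set_option autoImplicit false
set_option linter.unusedSectionVars false

open Set Filter Topology MeasureTheory

namespace Pool.Agent.Run7.h407.GD

open H459R3.NS
open Pool.Agent.Run7.h782.GD hiding sq
open Pool.Agent.Run7.h782.GD renaming sq → ksq
open Pool.Agent.Run7.h782.GS

theorem wsum_add_le (B : Finset K3) (φ : K3 → ℝ) (hφ : ∀ k, 0 ≤ φ k) (a b : Cf) :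
    ∑ k ∈ B, φ k * ‖(a + b) k‖ ≤ ∑ k ∈ B, φ k * ‖a k‖ + ∑ k ∈ B, φ k * ‖b k‖ := by
  rw [← Finset.sum_add_distrib]
  apply Finset.sum_le_sum
  intro k _
  rw [← mul_add]
  exact mul_le_mul_of_nonneg_left (norm_add_le _ _) (hφ k)

theorem wsum_sum_le {ι : Type*} (s : Finset ι) (B : Finset K3) (φ : K3 → ℝ) (hφ : ∀ k, 0 ≤ φ k)
    (a : ι → Cf) :
    ∑ k ∈ B, φ k * ‖(∑ i ∈ s, a i) k‖ ≤ ∑ i ∈ s, ∑ k ∈ B, φ k * ‖a i k‖ := by
  rw [Finset.sum_comm]
  apply Finset.sum_le_sum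
  intro k _
  rw [← Finset.mul_sum, Finset.sum_apply]
  exact mul_le_mul_of_nonneg_left (norm_sum_le _ _) (hφ k)

theorem ht_pos (s : ℝ) (k : K3) : 0 < ht s k := Real.exp_pos _

namespace Un

variable {ν : ℝ} (u : Un ν)

theorem Qb_le' : ‖u.Q‖ * ‖u.b‖ ≤ 2 * (u.P * len u.a) := u.Qb_le

theorem exp_le_one {r t : ℝ} (hr : 0 ≤ r) (ht : 0 ≤ t) : Real.exp (-(r * t)) ≤ 1 := by
  apply Real.exp_le_one_iff.2
  have : 0 ≤ r * t := mul_nonneg hr ht
  linarith

theorem nA (t : ℝ) : ‖(ex (lam ν u.m) t * u.P) • vc u.a‖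
    ≤ Real.exp (-(u.la * t)) * (u.P * len u.a) := by
  rw [norm_smul, norm_mul, norm_ex, Complex.norm_real, Real.norm_eq_abs, abs_of_nonneg u.P_nonneg,
    ← la_eq, mul_assoc (Real.exp _)]
  apply mul_le_mul_of_nonneg_left _ (Real.exp_pos _).le
  exact mul_le_mul_of_nonneg_left (norm_vc_le u.a) u.P_nonneg

theorem nB {t : ℝ} (ht : 0 ≤ t) : ‖(ex (lam ν (u.m + u.k)) t * u.Q) • u.b‖
    ≤ Real.exp (-(u.la * t)) * (2 * (u.P * len u.a)) := by
  rw [norm_smul, norm_mul, norm_ex, mul_assoc (Real.exp _)]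
  have h2 : 0 ≤ u.P * len u.a := mul_nonneg u.P_nonneg (len_nonneg _)
  exact mul_le_mul (exp_mono u.la_le_B ht) u.Qb_le (by positivity) (Real.exp_pos _).le

theorem nL {t : ℝ} (ht : 0 ≤ t) : ‖(ex u.D t * u.c) • vc u.a‖
    ≤ Real.exp (-(u.la * t)) * (‖u.c‖ * len u.a) := by
  rw [norm_smul, norm_mul, norm_ex, mul_assoc (Real.exp _)]
  exact mul_le_mul (exp_mono u.la_le_D ht) (mul_le_mul_of_nonneg_left (norm_vc_le u.a)
    (norm_nonneg _)) (by positivity) (Real.exp_pos _).le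

/-- Heat weights of a unit at a later time. -/
theorem heat_U (B : Finset K3) {t s : ℝ} (ht' : 0 ≤ t) (hs : 0 ≤ s) :
    ∑ k ∈ B, ht s k * ‖u.U t k‖
      ≤ u.Sz * Real.exp (-(4 * Real.pi ^ 2 * u.om ^ 2 * s)) + ht s u.k * u.lo := by
  have h0 : ∀ k : K3, 0 ≤ ht s k := fun k => (ht_pos s k).le
  have s1 := wsum_add_le B (ht s) h0 (u.wA t + u.wB t) (u.wL t)
  have s2 := wsum_add_le B (ht s) h0 (u.wA t) (u.wB t)
  have w1 := wsum_pm_le B (fun x => Real.exp (-(4 * Real.pi ^ 2 * x * s)))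
    (fun x => (Real.exp_pos _).le) u.m ((ex (lam ν u.m) t * u.P) • vc u.a)
  have w2 := wsum_pm_le B (fun x => Real.exp (-(4 * Real.pi ^ 2 * x * s)))
    (fun x => (Real.exp_pos _).le) (u.m + u.k) ((ex (lam ν (u.m + u.k)) t * u.Q) • u.b)
  have w3 := wsum_pm_le B (fun x => Real.exp (-(4 * Real.pi ^ 2 * x * s)))
    (fun x => (Real.exp_pos _).le) u.k ((ex u.D t * u.c) • vc u.a)
  have e0 : Real.exp (-(u.la * t)) ≤ 1 := exp_le_one u.la_pos.le ht'
  have hP : 0 ≤ u.P * len u.a := mul_nonneg u.P_nonneg (len_nonneg _)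
  have hc : 0 ≤ ‖u.c‖ * len u.a := mul_nonneg (norm_nonneg _) (len_nonneg _)
  have a1 : ‖(ex (lam ν u.m) t * u.P) • vc u.a‖ ≤ u.P * len u.a :=
    (u.nA t).trans (by nlinarith)
  have a2 : ‖(ex (lam ν (u.m + u.k)) t * u.Q) • u.b‖ ≤ 2 * (u.P * len u.a) :=
    (u.nB ht').trans (by nlinarith)
  have a3 : ‖(ex u.D t * u.c) • vc u.a‖ ≤ ‖u.c‖ * len u.a :=
    (u.nL ht').trans (by nlinarith)
  have h6 : Real.exp (-(4 * Real.pi ^ 2 * ksq (u.m + u.k) * s))
      ≤ Real.exp (-(4 * Real.pi ^ 2 * u.om ^ 2 * s)) := by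
    apply Real.exp_le_exp.2
    rw [ksq_add u.hmk, om_sq]
    have h7 := sq_nonneg' u.k
    have : 0 ≤ 4 * Real.pi ^ 2 * ksq u.k * s := by positivity
    nlinarith
  have h7 : Real.exp (-(4 * Real.pi ^ 2 * ksq u.m * s))
      = Real.exp (-(4 * Real.pi ^ 2 * u.om ^ 2 * s)) := by rw [om_sq]
  have hE := Real.exp_pos (-(4 * Real.pi ^ 2 * u.om ^ 2 * s))
  have b1 : Real.exp (-(4 * Real.pi ^ 2 * ksq u.m * s))
      * (2 * ‖(ex (lam ν u.m) t * u.P) • vc u.a‖)
      ≤ Real.exp (-(4 * Real.pi ^ 2 * u.om ^ 2 * s)) * (2 * (u.P * len u.a)) := by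
    rw [h7]
    apply mul_le_mul_of_nonneg_left _ hE.le
    linarith
  have b2 : Real.exp (-(4 * Real.pi ^ 2 * ksq (u.m + u.k) * s))
      * (2 * ‖(ex (lam ν (u.m + u.k)) t * u.Q) • u.b‖)
      ≤ Real.exp (-(4 * Real.pi ^ 2 * u.om ^ 2 * s)) * (4 * (u.P * len u.a)) :=
    mul_le_mul h6 (by linarith) (by positivity) hE.le
  have b3 : Real.exp (-(4 * Real.pi ^ 2 * ksq u.k * s)) * (2 * ‖(ex u.D t * u.c) • vc u.a‖)
      ≤ ht s u.k * u.lo := by
    unfold lo
    have : Real.exp (-(4 * Real.pi ^ 2 * ksq u.k * s)) = ht s u.k := rfl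
    rw [this]
    apply mul_le_mul_of_nonneg_left _ (h0 _)
    linarith
  have e1 : ∑ k ∈ B, ht s k * ‖u.wA t k‖
      = ∑ k ∈ B, (fun x => Real.exp (-(4 * Real.pi ^ 2 * x * s))) (ksq k)
        * ‖pm u.m ((ex (lam ν u.m) t * u.P) • vc u.a) k‖ := rfl
  have e2 : ∑ k ∈ B, ht s k * ‖u.wB t k‖
      = ∑ k ∈ B, (fun x => Real.exp (-(4 * Real.pi ^ 2 * x * s))) (ksq k)
        * ‖pm (u.m + u.k) ((ex (lam ν (u.m + u.k)) t * u.Q) • u.b) k‖ := rfl
  have e3 : ∑ k ∈ B, ht s k * ‖u.wL t k‖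
      = ∑ k ∈ B, (fun x => Real.exp (-(4 * Real.pi ^ 2 * x * s))) (ksq k)
        * ‖pm u.k ((ex u.D t * u.c) • vc u.a) k‖ := rfl
  have eU : ∑ k ∈ B, ht s k * ‖u.U t k‖ = ∑ k ∈ B, ht s k * ‖(u.wA t + u.wB t + u.wL t) k‖ := rfl
  rw [eU]
  rw [e3] at s1
  rw [e1, e2] at s2
  unfold Sz
  simp only at s1 s2 w1 w2 w3
  linarith

theorem len_mk_le : len (u.m + u.k) ≤ 2 * u.om := by
  have h1 : len (u.m + u.k) ^ 2 ≤ (2 * u.om) ^ 2 := by
    rw [len_sq, ksq_add u.hmk, mul_pow, om_sq]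
    have := u.le
    have := sq_nonneg' u.m
    linarith
  have h2 := len_nonneg (u.m + u.k)
  have h3 := u.om_pos
  nlinarith

/-- One derivative of a unit. -/
theorem len_U (B : Finset K3) {t : ℝ} (ht' : 0 ≤ t) :
    ∑ k ∈ B, len k * ‖u.U t k‖ ≤ 2 * u.om * ((u.Sz + u.lo) * Real.exp (-(u.la * t))) := by
  have h0 : ∀ k : K3, 0 ≤ len k := fun k => len_nonneg k
  have s1 := wsum_add_le B len h0 (u.wA t + u.wB t) (u.wL t)
  have s2 := wsum_add_le B len h0 (u.wA t) (u.wB t)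
  have w1 := wsum_pm_le B Real.sqrt (fun x => Real.sqrt_nonneg _) u.m
    ((ex (lam ν u.m) t * u.P) • vc u.a)
  have w2 := wsum_pm_le B Real.sqrt (fun x => Real.sqrt_nonneg _) (u.m + u.k)
    ((ex (lam ν (u.m + u.k)) t * u.Q) • u.b)
  have w3 := wsum_pm_le B Real.sqrt (fun x => Real.sqrt_nonneg _) u.k ((ex u.D t * u.c) • vc u.a)
  have hP : 0 ≤ u.P * len u.a := mul_nonneg u.P_nonneg (len_nonneg _)
  have hc : 0 ≤ ‖u.c‖ * len u.a := mul_nonneg (norm_nonneg _) (len_nonneg _)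
  have hE := Real.exp_pos (-(u.la * t))
  have hom := u.om_pos
  have a1 := u.nA t
  have a2 := u.nB ht'
  have a3 := u.nL ht'
  have b1 : Real.sqrt (ksq u.m) * (2 * ‖(ex (lam ν u.m) t * u.P) • vc u.a‖)
      ≤ (2 * u.om) * (2 * (Real.exp (-(u.la * t)) * (u.P * len u.a))) := by
    apply mul_le_mul _ (by linarith) (by positivity) (by positivity)
    show u.om ≤ _
    linarith
  have b2 : Real.sqrt (ksq (u.m + u.k)) * (2 * ‖(ex (lam ν (u.m + u.k)) t * u.Q) • u.b‖)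
      ≤ (2 * u.om) * (2 * (Real.exp (-(u.la * t)) * (2 * (u.P * len u.a)))) :=
    mul_le_mul u.len_mk_le (by linarith) (by positivity) (by positivity)
  have b3 : Real.sqrt (ksq u.k) * (2 * ‖(ex u.D t * u.c) • vc u.a‖)
      ≤ (2 * u.om) * (2 * (Real.exp (-(u.la * t)) * (‖u.c‖ * len u.a))) := by
    apply mul_le_mul _ (by linarith) (by positivity) (by positivity)
    show len u.k ≤ _
    have := u.om_ge
    linarith
  have e1 : ∑ k ∈ B, len k * ‖u.wA t k‖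
      = ∑ k ∈ B, Real.sqrt (ksq k) * ‖pm u.m ((ex (lam ν u.m) t * u.P) • vc u.a) k‖ := rfl
  have e2 : ∑ k ∈ B, len k * ‖u.wB t k‖ = ∑ k ∈ B, Real.sqrt (ksq k)
      * ‖pm (u.m + u.k) ((ex (lam ν (u.m + u.k)) t * u.Q) • u.b) k‖ := rfl
  have e3 : ∑ k ∈ B, len k * ‖u.wL t k‖
      = ∑ k ∈ B, Real.sqrt (ksq k) * ‖pm u.k ((ex u.D t * u.c) • vc u.a) k‖ := rfl
  have eU : ∑ k ∈ B, len k * ‖u.U t k‖ = ∑ k ∈ B, len k * ‖(u.wA t + u.wB t + u.wL t) k‖ := rfl
  rw [eU]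
  rw [e3] at s1
  rw [e1, e2] at s2
  unfold Sz lo
  nlinarith

end Un

variable {ν : ℝ} {ι : Type} [Fintype ι] [DecidableEq ι] (u : ι → Un ν)

omit [DecidableEq ι] in
theorem vv_heat (B : Finset K3) {t s : ℝ} (ht' : 0 ≤ t) (hs : 0 ≤ s) :
    ∑ k ∈ B, ht s k * ‖vv u t k‖
      ≤ ∑ i, (u i).Sz * Real.exp (-(4 * Real.pi ^ 2 * (u i).om ^ 2 * s))
        + ∑ i, ht s (u i).k * (u i).lo := by
  unfold vv
  refine (wsum_sum_le _ B (ht s) (fun k => (ht_pos s k).le) _).trans ?_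
  rw [← Finset.sum_add_distrib]
  exact Finset.sum_le_sum fun i _ => (u i).heat_U B ht' hs

theorem exp_neg_le_sq {x : ℝ} (hx : 0 < x) : Real.exp (-x) ≤ 2 / x ^ 2 := by
  rw [Real.exp_neg, inv_eq_one_div, div_le_div_iff₀ (Real.exp_pos _) (by positivity)]
  have := Real.quadratic_le_exp_of_nonneg hx.le
  nlinarith

theorem Hyp.decay_len {u : ι → Un ν} {E G : ℝ} (h : Hyp u E G) (hE2 : 1 ≤ 18 * ν * E)
    (B : Finset K3) {δ t : ℝ} (hδ : 0 < δ) (ht' : δ ≤ t) :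
    ∑ k ∈ B, len k * ‖vv u t k‖
      ≤ (Fintype.card ι : ℝ) * (32 * G) / (36 * ν * δ) ^ 2 / E * Real.exp (-t) := by
  have hν := h.hν
  have hE : 0 < E := by linarith [h.hE]
  have hE1 := h.hE
  have hG := h.hG
  have hk := h.kap
  have ht0 : 0 < t := hδ.trans_le ht'
  have hk0 : 0 < 4 * Real.pi ^ 2 * ν := by
    have := Real.pi_pos
    positivity
  unfold vv
  refine (wsum_sum_le _ B len (fun k => len_nonneg k) _).trans ?_
  have h1 : ∀ i ∈ (Finset.univ : Finset ι), ∑ k ∈ B, len k * ‖(u i).U t k‖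
      ≤ 32 * G / ((36 * ν * δ) ^ 2 * E) * Real.exp (-t) := by
    intro i _
    refine ((u i).len_U B ht0.le).trans ?_
    have h2 := (u i).om_pos
    have h3 := h.MM_le i
    have h4 := (u i).la_pos
    have h6 := h.hom i
    have h7 : 36 * ν * (u i).om ^ 2 ≤ (u i).la := by
      unfold Un.la
      exact mul_le_mul_of_nonneg_right hk (by positivity)
    have h8 : 2 ≤ (u i).la := by
      have : E ≤ (u i).om ^ 2 := by nlinarith
      have : 36 * ν * E ≤ 36 * ν * (u i).om ^ 2 := mul_le_mul_of_nonneg_left this (by positivity)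
      linarith
    have h9 : Real.exp (-((u i).la * t)) ≤ Real.exp (-((u i).la * δ / 2)) * Real.exp (-t) := by
      rw [← Real.exp_add]
      apply Real.exp_le_exp.2
      have a1 : (u i).la / 2 * δ ≤ (u i).la / 2 * t := mul_le_mul_of_nonneg_left ht' (by positivity)
      have a2 : 1 * t ≤ (u i).la / 2 * t := mul_le_mul_of_nonneg_right (by linarith) ht0.le
      linarith
    have h10 : Real.exp (-((u i).la * δ / 2)) ≤ 8 / ((36 * ν * δ) ^ 2 * (u i).om ^ 4) := by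
      refine (exp_neg_le_sq (by positivity)).trans ?_
      have : (36 * ν * (u i).om ^ 2 * δ / 2) ^ 2 ≤ ((u i).la * δ / 2) ^ 2 := by
        apply pow_le_pow_left₀ (by positivity)
        have := mul_le_mul_of_nonneg_right h7 hδ.le
        linarith
      calc 2 / ((u i).la * δ / 2) ^ 2 ≤ 2 / (36 * ν * (u i).om ^ 2 * δ / 2) ^ 2 :=
            div_le_div_of_nonneg_left (by norm_num) (by positivity) this
        _ = _ := by
            field_simp
            norm_num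
    have h11 : E ≤ (u i).om ^ 2 := by nlinarith
    have hEt := Real.exp_pos (-t)
    have hM : (u i).Sz + (u i).lo ≤ 2 * G * (u i).om := h3
    have hM0 : 0 ≤ (u i).Sz + (u i).lo := add_nonneg (u i).Sz_nonneg (u i).lo_nonneg
    calc 2 * (u i).om * (((u i).Sz + (u i).lo) * Real.exp (-((u i).la * t)))
        ≤ 2 * (u i).om * ((2 * G * (u i).om) * (8 / ((36 * ν * δ) ^ 2 * (u i).om ^ 4)
          * Real.exp (-t))) := by
          apply mul_le_mul_of_nonneg_left _ (by positivity)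
          apply mul_le_mul hM _ (Real.exp_pos _).le (by positivity)
          exact h9.trans (mul_le_mul_of_nonneg_right h10 hEt.le)
      _ = 32 * G / ((36 * ν * δ) ^ 2 * (u i).om ^ 2) * Real.exp (-t) := by
          field_simp
          ring
      _ ≤ 32 * G / ((36 * ν * δ) ^ 2 * E) * Real.exp (-t) := by
          apply mul_le_mul_of_nonneg_right _ hEt.le
          apply div_le_div_of_nonneg_left (by positivity) (by positivity)
          exact mul_le_mul_of_nonneg_left h11 (by positivity)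
  refine (Finset.sum_le_sum h1).trans (le_of_eq ?_)
  rw [Finset.sum_const, Finset.card_univ]
  simp only [nsmul_eq_mul]
  field_simp

/-- The majorant of the waves under the heat flow. -/
noncomputable def hmaj (s : ℝ) : ℝ :=
  ∑ i, (u i).Sz * Real.exp (-(4 * Real.pi ^ 2 * (u i).om ^ 2 * s))

omit [DecidableEq ι] in
theorem hmaj_cont : Continuous (hmaj u) := by
  unfold hmaj
  fun_prop

variable {u}

theorem Hyp.hmaj_int {E G : ℝ} (h : Hyp u E G) {Gs : ℝ} (hGs : 0 ≤ Gs)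
    (hSS : ∀ i j, (u i).Sz * (u j).Sz ≤ Gs * ((u i).om * (u j).om)) {T : ℝ} :
    ∫ t in (0 : ℝ)..T, hmaj u t ^ 2
      ≤ 10 * ν * ∑ i, (u i).ga + (Fintype.card ι : ℝ) ^ 2 * (Gs / (36 * E)) := by
  have hν := h.hν
  have hE : 0 < E := by linarith [h.hE]
  have hpi := pi_sq_gt
  have hk0 : 0 < 4 * Real.pi ^ 2 := by positivity
  have a2 := int_sq_le (T := T) (fun i => (u i).Sz) (fun i => 4 * Real.pi ^ 2 * (u i).om ^ 2)
    (fun i => (u i).Sz_nonneg) (fun i => by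
      have := (u i).om_pos
      positivity)
  have a3 := quad_le (E := E) (κ := 4 * Real.pi ^ 2) (G := Gs)
    (ω := fun i => (u i).om) (M := fun i => (u i).Sz)
    (r := fun i => 4 * Real.pi ^ 2 * (u i).om ^ 2) hE hk0
    (fun i => (u i).om_pos) h.hs (fun i => rfl) hSS hGs
  have d3 : Gs / (4 * Real.pi ^ 2 * E) ≤ Gs / (36 * E) := by
    apply div_le_div_of_nonneg_left hGs (by positivity)
    apply mul_le_mul_of_nonneg_right _ hE.le
    linarith
  have a4 : ∑ i, (u i).Sz ^ 2 / (2 * (4 * Real.pi ^ 2 * (u i).om ^ 2)) ≤ 10 * ν * ∑ i, (u i).ga := by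
    rw [Finset.mul_sum]
    apply Finset.sum_le_sum
    intro i _
    have h2 := (u i).om_pos
    have h3 := (u i).Sz_sq
    have h9 := (u i).ga_nonneg
    rw [div_le_iff₀ (by positivity)]
    have : 0 ≤ ν * (u i).ga * (u i).om ^ 2 := by positivity
    calc (u i).Sz ^ 2 ≤ 720 * ν * (u i).ga * (u i).om ^ 2 := h3
      _ = 720 * (ν * (u i).ga * (u i).om ^ 2) := by ring
      _ ≤ (80 * Real.pi ^ 2) * (ν * (u i).ga * (u i).om ^ 2) := by
          apply mul_le_mul_of_nonneg_right _ this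
          linarith
      _ = _ := by ring
  have a5 : (Fintype.card ι : ℝ) ^ 2 * (Gs / (4 * Real.pi ^ 2 * E))
      ≤ (Fintype.card ι : ℝ) ^ 2 * (Gs / (36 * E)) :=
    mul_le_mul_of_nonneg_left d3 (by positivity)
  have e : ∫ t in (0 : ℝ)..T, hmaj u t ^ 2 = ∫ t in (0 : ℝ)..T, (∑ i, (u i).Sz
      * Real.exp (-(4 * Real.pi ^ 2 * (u i).om ^ 2 * t))) ^ 2 := rfl
  rw [e]
  linarith

theorem Hyp.hmaj_sup {E G : ℝ} (h : Hyp u E G) (hN : (Fintype.card ι : ℝ) ^ 2 ≤ E) {s : ℝ}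
    (hs0 : 0 ≤ s) (hs : ∀ i, (u i).Sz ≤ s * (u i).om) {t : ℝ} (ht' : 0 < t) :
    hmaj u t ≤ 2 * s / Real.sqrt t := by
  have hE : 0 < E := by linarith [h.hE]
  have hr : 0 < Real.sqrt t := Real.sqrt_pos.2 ht'
  have hr2 : Real.sqrt t ^ 2 = t := Real.sq_sqrt ht'.le
  unfold hmaj
  rw [le_div_iff₀ hr, Finset.sum_mul]
  have h1 : ∀ i ∈ (Finset.univ : Finset ι), (u i).Sz
      * Real.exp (-(4 * Real.pi ^ 2 * (u i).om ^ 2 * t)) * Real.sqrt t
      ≤ s * phi ((u i).om * Real.sqrt t) := by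
    intro i _
    have h2 := (u i).om_pos
    have h3 := hs i
    have h4 : Real.exp (-(4 * Real.pi ^ 2 * (u i).om ^ 2 * t))
        ≤ Real.exp (-((u i).om * Real.sqrt t) ^ 2) := by
      apply Real.exp_le_exp.2
      rw [mul_pow, hr2]
      have h5 := pi_sq_gt
      have : 0 ≤ (u i).om ^ 2 * t := by positivity
      nlinarith
    unfold phi
    calc (u i).Sz * Real.exp (-(4 * Real.pi ^ 2 * (u i).om ^ 2 * t)) * Real.sqrt t
        ≤ (s * (u i).om) * Real.exp (-((u i).om * Real.sqrt t) ^ 2) * Real.sqrt t := by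
          apply mul_le_mul_of_nonneg_right _ hr.le
          exact mul_le_mul h3 h4 (Real.exp_pos _).le (by positivity)
      _ = _ := by ring
  refine (Finset.sum_le_sum h1).trans ?_
  rw [← Finset.mul_sum]
  have h6 := sum_phi_le (ω := fun i => (u i).om) (fun i => (u i).om_pos.le) h.hs hE hN
    (s := Real.sqrt t) hr.le
  calc s * ∑ i, phi ((u i).om * Real.sqrt t) ≤ s * 2 := mul_le_mul_of_nonneg_left h6 hs0
    _ = 2 * s := by ring

end Pool.Agent.Run7.h407.GD
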